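import Pool.Agent.W200.MR.Stm

/-!
The Furstenberg systems of a sequence `(-1)^n ε n` with few sign changes of `ε` live on two points.
-/

set_option autoImplicit false

open Finset Filter Topology MeasureTheory

namespace Pool.Agent.W915.MR

open Pool.Agent.W200.MR

theorem ae_eq_one {Ω : Type} [MeasurableSpace Ω] (μ : Measure Ω) [IsProbabilityMeasure μ]
    (f : Ω → ℂ) (hf : Measurable f) (hb : ∀ᵐ x ∂μ, ‖f x‖ ≤ 1) (hi : ∫ x, f x ∂μ = 1) :
    ∀ᵐ x ∂μ, f x = 1 := by
  have hint : Integrable f μ := Integrable.of_bound hf.aestronglyMeasurable 1 hb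
  have hre : ∫ x, (f x).re ∂μ = 1 := by
    have h := integral_re hint
    change ∫ x, RCLike.re (f x) ∂μ = 1
    rw [h, hi]
    simp
  have hintre : Integrable (fun x => (f x).re) μ := hint.re
  have h0 : ∫ x, (1 - (f x).re) ∂μ = 0 := by
    rw [integral_sub (integrable_const _) hintre, hre]
    simp
  have hnn : 0 ≤ᵐ[μ] fun x => 1 - (f x).re := by
    filter_upwards [hb] with x hx
    have := Complex.re_le_norm (f x)
    change 0 ≤ 1 - (f x).re
    linarith
  have hz := (integral_eq_zero_iff_of_nonneg_ae hnn ((integrable_const _).sub hintre)).mp h0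
  filter_upwards [hz, hb] with x hx hb
  have h1 : (f x).re = 1 := by
    have : 1 - (f x).re = 0 := hx
    linarith
  have h2 : (f x).re ^ 2 + (f x).im ^ 2 ≤ 1 := by
    have h3 := Complex.normSq_apply (f x)
    have h4 := Complex.normSq_eq_norm_sq (f x)
    have h5 : ‖f x‖ ^ 2 ≤ 1 := by
      have := norm_nonneg (f x)
      nlinarith
    nlinarith
  have h6 : (f x).im = 0 := by
    rw [h1] at h2
    nlinarith [sq_nonneg (f x).im]
  apply Complex.ext
  · simpa using h1
  · simpa using h6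

theorem t_FURa : S_FURa := by
  intro ε hε hlim w hw Nk μ hNk hμ hball hinv hcor
  have hNkt : Tendsto Nk atTop atTop := hNk.tendsto_atTop
  -- the bound
  have hae : ∀ᵐ x ∂μ, ∀ z : ℤ, ‖x z‖ ≤ 1 := by
    have hms : MeasurableSet {x : ℤ → ℂ | ∀ z : ℤ, ‖x z‖ ≤ 1} := by
      rw [Set.ofPred_forall]
      exact MeasurableSet.iInter fun z =>
        measurableSet_le ((measurable_pi_apply z).norm) measurable_const
    exact (mem_ae_iff_prob_eq_one hms).mpr hball
  -- first integral
  have hI1 : ∫ x : ℤ → ℂ, x 0 * x 0 ∂μ = 1 := by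
    have h := hcor 2 ![0, 0] (fun _ => false)
    simp only [Fin.prod_univ_two, Bool.false_eq_true, if_false, Matrix.cons_val_zero,
      Matrix.cons_val_one, Nat.cast_zero, add_zero] at h
    refine (tendsto_nhds_unique h ?_)
    have hww : ∀ n, w n * w n = 1 := by
      intro n
      rw [hw n, ← Complex.ofReal_mul]
      have h1 : ((-1 : ℝ) ^ n * ε n) * ((-1 : ℝ) ^ n * ε n) = 1 := by
        have h2 : (-1 : ℝ) ^ n * (-1 : ℝ) ^ n = 1 := by
          rw [← mul_pow]; simp
        have h3 : ε n * ε n = 1 := by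
          rcases hε n with h | h <;> rw [h] <;> norm_num
        calc ((-1 : ℝ) ^ n * ε n) * ((-1 : ℝ) ^ n * ε n)
            = ((-1 : ℝ) ^ n * (-1 : ℝ) ^ n) * (ε n * ε n) := by ring
          _ = 1 := by rw [h2, h3, one_mul]
      rw [h1, Complex.ofReal_one]
    simp only [hww, Finset.sum_const, Nat.card_Icc, add_tsub_cancel_right, nsmul_eq_mul, mul_one]
    apply tendsto_const_nhds.congr'
    filter_upwards [hNkt.eventually_ge_atTop 1] with k hk
    have : (Nk k : ℂ) ≠ 0 := by
      exact_mod_cast (show Nk k ≠ 0 by omega)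
    field_simp
  -- second integral
  have hI2 : ∫ x : ℤ → ℂ, x 0 * x 1 ∂μ = -1 := by
    have h := hcor 2 ![0, 1] (fun _ => false)
    simp only [Fin.prod_univ_two, Bool.false_eq_true, if_false, Matrix.cons_val_zero,
      Matrix.cons_val_one, Nat.cast_zero, add_zero, Nat.cast_one] at h
    refine (tendsto_nhds_unique h ?_)
    have hww : ∀ n, w n * w (n + 1) = ((-(ε n * ε (n + 1)) : ℝ) : ℂ) := by
      intro n
      rw [hw n, hw (n + 1), ← Complex.ofReal_mul]
      congr 1
      have h2 : (-1 : ℝ) ^ n * (-1 : ℝ) ^ n = 1 := by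
        rw [← mul_pow]; simp
      calc ((-1 : ℝ) ^ n * ε n) * ((-1 : ℝ) ^ (n + 1) * ε (n + 1))
          = -((-1 : ℝ) ^ n * (-1 : ℝ) ^ n) * (ε n * ε (n + 1)) := by ring
        _ = -(ε n * ε (n + 1)) := by rw [h2]; ring
    simp only [hww]
    have h3 := (Complex.continuous_ofReal.tendsto _).comp ((hlim.comp hNkt).neg)
    rw [Complex.ofReal_neg, Complex.ofReal_one] at h3
    refine h3.congr ?_
    intro k
    simp only [Function.comp, Finset.sum_neg_distrib, Complex.ofReal_neg, Complex.ofReal_mul,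
      Complex.ofReal_div, Complex.ofReal_one, Complex.ofReal_natCast, Complex.ofReal_sum]
    ring
  have hm : ∀ z : ℤ, Measurable (fun x : ℤ → ℂ => x z) := fun z => measurable_pi_apply z
  have hE0 : ∀ᵐ x ∂μ, x 0 * x 0 = 1 := by
    refine ae_eq_one μ _ ((hm 0).mul (hm 0)) ?_ hI1
    filter_upwards [hae] with x hx
    rw [norm_mul]
    exact mul_le_one₀ (hx 0) (norm_nonneg _) (hx 0)
  have hE1 : ∀ᵐ x ∂μ, x 0 * x (0 + 1) = -1 := by
    have h := ae_eq_one μ (fun x : ℤ → ℂ => -(x 0 * x 1)) ((hm 0).mul (hm 1)).neg ?_ ?_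
    · filter_upwards [h] with x hx
      rw [zero_add, ← hx, neg_neg]
    · filter_upwards [hae] with x hx
      rw [norm_neg, norm_mul]
      exact mul_le_one₀ (hx 0) (norm_nonneg _) (hx 1)
    · rw [integral_neg, hI2, neg_neg]
  -- invariance
  have hstep : ∀ z : ℤ, μ {x : ℤ → ℂ | ¬ (x z * x (z + 1) = -1)} =
      μ {x : ℤ → ℂ | ¬ (x (z + 1) * x (z + 1 + 1) = -1)} := by
    intro z
    have hms : MeasurableSet {x : ℤ → ℂ | ¬ (x z * x (z + 1) = -1)} :=
      (measurableSet_eq_fun ((hm z).mul (hm (z + 1))) measurable_const).compl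
    have h := hinv.measure_preimage hms.nullMeasurableSet
    rw [← h]
    congr 1
  have hall : ∀ z : ℤ, μ {x : ℤ → ℂ | ¬ (x z * x (z + 1) = -1)} = 0 := by
    intro z
    induction z using Int.induction_on with
    | zero => exact ae_iff.mp hE1
    | succ n ih => rw [← hstep]; exact ih
    | pred n ih =>
      rw [hstep, sub_add_cancel]
      exact ih
  have hall' : ∀ᵐ x ∂μ, ∀ z : ℤ, x z * x (z + 1) = -1 := by
    rw [ae_all_iff]
    intro z
    exact ae_iff.mpr (hall z)
  filter_upwards [hE0, hall'] with x h0 h1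
  have h2 : ∀ z : ℤ, x z ≠ 0 := by
    intro z hz
    have := h1 z
    rw [hz, zero_mul] at this
    norm_num at this
  have hx0 : x 0 = 1 ∨ x 0 = -1 := mul_self_eq_one_iff.mp h0
  have key : ∀ c : ℂ, (c = 1 ∨ c = -1) → x 0 = c → ∀ z : ℤ, x z = c * (-1 : ℂ) ^ z := by
    intro c hc hxc z
    have hcc : c * c = 1 := by rcases hc with h | h <;> rw [h] <;> norm_num
    have hpow : ∀ z : ℤ, ((-1 : ℂ) ^ z) * ((-1 : ℂ) ^ z) = 1 := by
      intro z
      rw [← mul_zpow]
      norm_num
    induction z using Int.induction_on with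
    | zero => rw [hxc, zpow_zero, mul_one]
    | succ n ih =>
      have h3 := h1 n
      rw [ih] at h3
      have h4 : x (n + 1) = (c * (-1 : ℂ) ^ (n : ℤ)) * ((c * (-1 : ℂ) ^ (n : ℤ)) * x (n + 1)) := by
        have h5 := hpow n
        linear_combination (-(c * c) * x (n + 1)) * h5 - x (n + 1) * hcc
      rw [h3] at h4
      rw [h4, zpow_add₀ (by norm_num : (-1 : ℂ) ≠ 0), zpow_one]
      ring
    | pred n ih =>
      have h3 := h1 (-n - 1)
      rw [sub_add_cancel, ih] at h3
      have h4 : x (-n - 1) = (x (-n - 1) * (c * (-1 : ℂ) ^ (-(n : ℤ)))) *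
          (c * (-1 : ℂ) ^ (-(n : ℤ))) := by
        have h5 := hpow (-n)
        linear_combination (-(c * c) * x (-n - 1)) * h5 - x (-n - 1) * hcc
      rw [h3] at h4
      rw [h4, zpow_sub₀ (by norm_num : (-1 : ℂ) ≠ 0), zpow_one]
      ring
  rcases hx0 with h | h
  · left
    intro z
    rw [key 1 (Or.inl rfl) h z, one_mul]
  · right
    intro z
    rw [key (-1) (Or.inr rfl) h z, neg_one_mul]

end Pool.Agent.W915.MR
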